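import Mathlib

/-!
Abstract criterion: asymptotically biorthogonal systems of functionals bounded in `ℓ_1` give a
complemented copy of `ℓ_1` and destroy the Grothendieck property.
-/

open Finset Filter Topology
open scoped ENNReal

namespace W26.GP

/-- A normed space `E` over `𝕜` is a *Grothendieck space* if every weak* convergent sequence
in its dual converges weakly, that is, against every element of the bidual. -/
def IsGrothendieck (𝕜 : Type*) [RCLike 𝕜] (E : Type*) [NormedAddCommGroup E]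
    [NormedSpace 𝕜 E] : Prop :=
  ∀ (φ : ℕ → (E →L[𝕜] 𝕜)) (φ₀ : E →L[𝕜] 𝕜),
    (∀ x : E, Tendsto (fun n => φ n x) atTop (𝓝 (φ₀ x))) →
    ∀ Λ : (E →L[𝕜] 𝕜) →L[𝕜] 𝕜, Tendsto (fun n => Λ (φ n)) atTop (𝓝 (Λ φ₀))

variable {𝕜 : Type*} [RCLike 𝕜]

/-- limit along a free ultrafilter -/
noncomputable def ulim (a : ℕ → 𝕜) : 𝕜 := limUnder (hyperfilter ℕ : Filter ℕ) a

lemma ulim_tendsto {a : ℕ → 𝕜} {C : ℝ} (h : ∀ n, ‖a n‖ ≤ C) :
    Tendsto a (hyperfilter ℕ : Filter ℕ) (𝓝 (ulim a)) := by
  obtain ⟨x, -, hx⟩ := (isCompact_closedBall (0 : 𝕜) C).ultrafilter_le_nhds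
    ((hyperfilter ℕ).map a) (by
      rw [Ultrafilter.coe_map, le_principal_iff, Filter.mem_map]
      exact Filter.univ_mem' fun n => by simpa using h n)
  exact tendsto_nhds_limUnder ⟨x, hx⟩

lemma ulim_eq {a : ℕ → 𝕜} {x : 𝕜} (h : Tendsto a (hyperfilter ℕ : Filter ℕ) (𝓝 x)) :
    ulim a = x := h.limUnder_eq

lemma ulim_norm_le {a : ℕ → 𝕜} {C : ℝ} (h : ∀ n, ‖a n‖ ≤ C) : ‖ulim a‖ ≤ C :=
  le_of_tendsto (ulim_tendsto h).norm (Eventually.of_forall h)

variable {B : Type*} [NormedAddCommGroup B] [NormedSpace 𝕜 B]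

section
variable (phi : ℕ → ℕ → (B →ₗ[𝕜] 𝕜)) (C : ℝ)
  (hsum : ∀ n k T, ∑ i ∈ range k, ‖phi n i T‖ ≤ C * ‖T‖)
include hsum

lemma phi_le (n i : ℕ) (T : B) : ‖phi n i T‖ ≤ C * ‖T‖ :=
  (Finset.single_le_sum (f := fun i => ‖phi n i T‖) (fun _ _ => norm_nonneg _)
    (Finset.self_mem_range_succ i)).trans (hsum n (i + 1) T)

/-- the limit functionals -/
noncomputable def Phi (i : ℕ) : B →L[𝕜] 𝕜 :=
  LinearMap.mkContinuous
    { toFun := fun T => ulim fun n => phi n i T
      map_add' := fun S T => by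
        refine ulim_eq ?_
        simp only [map_add]
        exact (ulim_tendsto fun n => phi_le phi C hsum n i S).add
          (ulim_tendsto fun n => phi_le phi C hsum n i T)
      map_smul' := fun c T => by
        refine ulim_eq ?_
        simp only [map_smul, RingHom.id_apply]
        exact (ulim_tendsto fun n => phi_le phi C hsum n i T).const_smul c } C
    fun T => ulim_norm_le fun n => phi_le phi C hsum n i T

lemma Phi_tendsto (i : ℕ) (T : B) :
    Tendsto (fun n => phi n i T) (hyperfilter ℕ : Filter ℕ) (𝓝 (Phi phi C hsum i T)) :=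
  ulim_tendsto fun n => phi_le phi C hsum n i T

lemma Phi_sum (k : ℕ) (T : B) : ∑ i ∈ range k, ‖Phi phi C hsum i T‖ ≤ C * ‖T‖ :=
  le_of_tendsto (tendsto_finsetSum _ fun i _ => (Phi_tendsto phi C hsum i T).norm)
    (Eventually.of_forall fun n => hsum n k T)

lemma Phi_summable (T : B) : Summable fun i => ‖Phi phi C hsum i T‖ :=
  summable_of_sum_range_le (fun _ => norm_nonneg _) fun k => Phi_sum phi C hsum k T

lemma Phi_V (V : ℕ → B) (hphi : ∀ n i j, i < n → phi n i (V j) = if i = j then 1 else 0)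
    (i j : ℕ) : Phi phi C hsum i (V j) = if i = j then 1 else 0 := by
  refine tendsto_nhds_unique (Phi_tendsto phi C hsum i (V j)) ?_
  refine tendsto_const_nhds.congr' ?_
  have : ∀ᶠ n in (hyperfilter ℕ : Filter ℕ), i < n :=
    (Nat.hyperfilter_le_atTop : (hyperfilter ℕ : Filter ℕ) ≤ atTop) (eventually_gt_atTop i)
  filter_upwards [this] with n hn
  exact (hphi n i j hn).symm

end

/-- From uniformly complemented `ℓ_1^n` in a common position, the Grothendieck property fails. -/
theorem not_grothendieck (phi : ℕ → ℕ → (B →ₗ[𝕜] 𝕜)) (C : ℝ)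
    (hsum : ∀ n k T, ∑ i ∈ range k, ‖phi n i T‖ ≤ C * ‖T‖) (V : ℕ → B) (hV : ∀ j, ‖V j‖ ≤ 1)
    (hphi : ∀ n i j, i < n → phi n i (V j) = if i = j then 1 else 0) :
    ¬ IsGrothendieck 𝕜 B := by
  intro hG
  have hC : 0 ≤ C := by
    have h1 := hsum 1 1 (V 0)
    rw [Finset.sum_range_one, hphi 1 0 0 one_pos] at h1
    simp only [if_true, norm_one] at h1
    by_contra hc
    push Not at hc
    have := mul_nonpos_of_nonpos_of_nonneg hc.le (norm_nonneg (V 0))
    linarith
  set F : ℕ → (B →L[𝕜] 𝕜) := fun k => ∑ i ∈ range k, Phi phi C hsum i with hF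
  have hFT : ∀ T, Tendsto (fun k => F k T) atTop (𝓝 (∑' i, Phi phi C hsum i T)) := by
    intro T
    have := (Phi_summable phi C hsum T).of_norm.hasSum.tendsto_sum_nat
    simpa [hF, ContinuousLinearMap.sum_apply] using this
  set F0 : B →L[𝕜] 𝕜 := LinearMap.mkContinuous
    { toFun := fun T => ∑' i, Phi phi C hsum i T
      map_add' := fun S T => by
        simp only [map_add]
        exact (Phi_summable phi C hsum S).of_norm.tsum_add (Phi_summable phi C hsum T).of_norm
      map_smul' := fun c T => by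
        simp only [map_smul, RingHom.id_apply, smul_eq_mul]
        exact tsum_mul_left } C (fun T => by
      refine (norm_tsum_le_tsum_norm (Phi_summable phi C hsum T)).trans ?_
      exact (Phi_summable phi C hsum T).tsum_le_of_sum_range_le fun k => Phi_sum phi C hsum k T)
    with hF0
  have hVb : ∀ (φ : B →L[𝕜] 𝕜) (j : ℕ), ‖φ (V j)‖ ≤ ‖φ‖ := fun φ j =>
    (φ.le_opNorm (V j)).trans (mul_le_of_le_one_right (norm_nonneg _) (hV j))
  set L : (B →L[𝕜] 𝕜) →L[𝕜] 𝕜 := LinearMap.mkContinuous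
    { toFun := fun φ => ulim fun j => φ (V j)
      map_add' := fun φ ψ => by
        refine ulim_eq ?_
        simp only [ContinuousLinearMap.add_apply]
        exact (ulim_tendsto (hVb φ)).add (ulim_tendsto (hVb ψ))
      map_smul' := fun c φ => by
        refine ulim_eq ?_
        simp only [ContinuousLinearMap.smul_apply, RingHom.id_apply]
        exact (ulim_tendsto (hVb φ)).const_smul c } 1 (fun φ => by
      rw [one_mul]
      exact ulim_norm_le (hVb φ)) with hL
  have h1 := hG F F0 hFT L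
  have h2 : ∀ k, L (F k) = 0 := by
    intro k
    refine ulim_eq ?_
    refine tendsto_const_nhds.congr' ?_
    have : ∀ᶠ n in (hyperfilter ℕ : Filter ℕ), k ≤ n :=
      (Nat.hyperfilter_le_atTop : (hyperfilter ℕ : Filter ℕ) ≤ atTop) (eventually_ge_atTop k)
    filter_upwards [this] with j hj
    simp only [hF, ContinuousLinearMap.sum_apply, Phi_V phi C hsum V hphi]
    refine (Finset.sum_eq_zero fun i hi => ?_).symm
    rw [if_neg]
    have := Finset.mem_range.1 hi
    omega
  have h3 : L F0 = 1 := by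
    refine ulim_eq ?_
    refine tendsto_const_nhds.congr fun j => ?_
    change (1 : 𝕜) = ∑' i, Phi phi C hsum i (V j)
    simp only [Phi_V phi C hsum V hphi]
    rw [tsum_eq_single j (fun i hi => if_neg hi), if_pos rfl]
  simp only [h2, h3] at h1
  exact zero_ne_one (tendsto_nhds_unique tendsto_const_nhds h1)

/-- `ℓ_1` is complemented. -/
theorem l1_complemented [CompleteSpace B] (phi : ℕ → ℕ → (B →ₗ[𝕜] 𝕜)) (C : ℝ)
    (hsum : ∀ n k T, ∑ i ∈ range k, ‖phi n i T‖ ≤ C * ‖T‖) (V : ℕ → B) (hV : ∀ j, ‖V j‖ ≤ 1)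
    (hphi : ∀ n i j, i < n → phi n i (V j) = if i = j then 1 else 0) :
    ∃ (J : lp (fun _ : ℕ => 𝕜) 1 →L[𝕜] B) (P : B →L[𝕜] lp (fun _ : ℕ => 𝕜) 1),
      P ∘L J = ContinuousLinearMap.id 𝕜 _ := by
  have hsm : ∀ a : lp (fun _ : ℕ => 𝕜) 1, Summable fun i => ‖a i‖ := fun a => by
    simpa using (lp.memℓp a).summable (by simp)
  have hnorm : ∀ a : lp (fun _ : ℕ => 𝕜) 1, ‖a‖ = ∑' i, ‖a i‖ := fun a => by
    simpa using lp.norm_eq_tsum_rpow (by simp) a
  have hs1 : ∀ a : lp (fun _ : ℕ => 𝕜) 1, Summable fun i => ‖a i • V i‖ := fun a =>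
    Summable.of_nonneg_of_le (fun _ => norm_nonneg _) (fun i => by
      rw [norm_smul]
      exact mul_le_of_le_one_right (norm_nonneg _) (hV i)) (hsm a)
  set J : lp (fun _ : ℕ => 𝕜) 1 →L[𝕜] B := LinearMap.mkContinuous
    { toFun := fun a => ∑' i, a i • V i
      map_add' := fun a b => by
        simp only [lp.coeFn_add, Pi.add_apply, add_smul]
        exact (hs1 a).of_norm.tsum_add (hs1 b).of_norm
      map_smul' := fun c a => by
        simp only [lp.coeFn_smul, Pi.smul_apply, RingHom.id_apply, smul_assoc]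
        exact (hs1 a).of_norm.tsum_const_smul c } 1 (fun a => by
      rw [one_mul, hnorm]
      refine (norm_tsum_le_tsum_norm (hs1 a)).trans ?_
      exact (hs1 a).tsum_le_tsum (fun i => by
        rw [norm_smul]
        exact mul_le_of_le_one_right (norm_nonneg _) (hV i)) (hsm a)) with hJ
  have hmem : ∀ T : B, Memℓp (fun i => Phi phi C hsum i T) 1 := fun T =>
    memℓp_gen (by simpa using Phi_summable phi C hsum T)
  set P : B →L[𝕜] lp (fun _ : ℕ => 𝕜) 1 := LinearMap.mkContinuous
    { toFun := fun T => ⟨fun i => Phi phi C hsum i T, hmem T⟩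
      map_add' := fun S T => by
        ext i
        change Phi phi C hsum i (S + T) = Phi phi C hsum i S + Phi phi C hsum i T
        exact map_add _ _ _
      map_smul' := fun c T => by
        ext i
        change Phi phi C hsum i (c • T) = c • Phi phi C hsum i T
        exact map_smul _ _ _ } C (fun T => by
      rw [hnorm]
      exact (Phi_summable phi C hsum T).tsum_le_of_sum_range_le fun k => Phi_sum phi C hsum k T)
    with hP
  refine ⟨J, P, ?_⟩
  ext a i
  change Phi phi C hsum i (∑' j, a j • V j) = a i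
  rw [ContinuousLinearMap.map_tsum _ (hs1 a).of_norm]
  simp only [map_smul, Phi_V phi C hsum V hphi]
  rw [tsum_eq_single i (fun j hj => by rw [if_neg (Ne.symm hj), smul_zero]), if_pos rfl,
    smul_eq_mul, mul_one]

end W26.GP
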