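import Pool.Agent.W26.GP.Oper
import Pool.Agent.W26.GP.Lim

/-!
`B(ℓ_p)` contains a complemented copy of `ℓ_1` for `1 < p < ∞`, `p ≠ 2`.
-/

open Finset Filter Topology
open scoped ENNReal

namespace W26.GP

variable {𝕜 : Type*} [RCLike 𝕜] {p : ℝ≥0∞} [Fact (1 ≤ p)]

/-- composition with a permutation of the index set -/
noncomputable def permOp (hp : 0 < p.toReal) (σ : ℕ ≃ ℕ) :
    lp (fun _ : ℕ => 𝕜) p →L[𝕜] lp (fun _ : ℕ => 𝕜) p :=
  LinearMap.mkContinuous
    { toFun := fun f => ⟨fun m => f (σ m), memℓp_gen (by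
        have := (lp.memℓp f).summable hp
        exact σ.summable_iff.2 this)⟩
      map_add' := fun f g => rfl
      map_smul' := fun c f => rfl } 1 (fun f => by
      rw [one_mul, lp.norm_eq_tsum_rpow hp, lp.norm_eq_tsum_rpow hp]
      refine le_of_eq ?_
      congr 1
      exact σ.tsum_eq (fun m => ‖f m‖ ^ p.toReal))

lemma permOp_norm (hp : 0 < p.toReal) (σ : ℕ ≃ ℕ) : ‖permOp (𝕜 := 𝕜) hp σ‖ ≤ 1 :=
  LinearMap.mkContinuous_norm_le _ zero_le_one _

lemma permOp_apply (hp : 0 < p.toReal) (σ : ℕ ≃ ℕ) (f : lp (fun _ : ℕ => 𝕜) p) (m : ℕ) :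
    permOp hp σ f m = f (σ m) := rfl

/-- index set: disjoint union of cubes -/
abbrev Cu : Type := Σ n : ℕ, (Fin n → Bool)

lemma flip_flip {n : ℕ} (i : Fin n) (y : Fin n → Bool) : flip i (flip i y) = y := by
  funext j
  by_cases hj : j = i
  · subst hj; simp [flip]
  · simp [flip, hj]

/-- flip of coordinate `k` in all cubes of dimension larger than `k` -/
def fl (k : ℕ) (c : Cu) : Cu := ⟨c.1, if h : k < c.1 then flip ⟨k, h⟩ c.2 else c.2⟩

lemma fl_fl (k : ℕ) (c : Cu) : fl k (fl k c) = c := by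
  obtain ⟨n, y⟩ := c
  by_cases h : k < n
  · simp only [fl, h, dif_pos]
    exact congrArg (Sigma.mk n) (W26.GP.flip_flip _ _)
  · simp [fl, h]

/-- as a permutation -/
def flE (k : ℕ) : Cu ≃ Cu := (show Function.Involutive (fl k) from fl_fl k).toPerm

lemma flE_apply (k : ℕ) (c : Cu) : flE k c = fl k c := rfl

lemma exists_equiv : Nonempty (Cu ≃ ℕ) := by
  have : Infinite Cu := Infinite.of_injective (fun n : ℕ => (⟨n, fun _ => false⟩ : Cu))
    fun a b h => congrArg Sigma.fst h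
  exact nonempty_equiv_of_countable

/-- level functional -/
noncomputable def phi (E : Cu ≃ ℕ) (n i : ℕ) :
    (lp (fun _ : ℕ => 𝕜) p →L[𝕜] lp (fun _ : ℕ => 𝕜) p) →ₗ[𝕜] 𝕜 where
  toFun T := if h : i < n then (1 / 2 : 𝕜) ^ n * ∑ y : Fin n → Bool,
    (T (lp.single p (E ⟨n, y⟩) (1 : 𝕜)) : lp (fun _ : ℕ => 𝕜) p) (E ⟨n, flip ⟨i, h⟩ y⟩) else 0
  map_add' S T := by
    by_cases h : i < n
    · simp [h, Finset.sum_add_distrib, mul_add]
    · simp [h]
  map_smul' c T := by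
    by_cases h : i < n
    · simp only [h, dif_pos, ContinuousLinearMap.smul_apply, lp.coeFn_smul, Pi.smul_apply,
        smul_eq_mul, RingHom.id_apply, ← Finset.mul_sum]
      ring
    · simp [h]

lemma io_half_pow (n : ℕ) (z : 𝕜) : io ((1 / 2 : 𝕜) ^ n * z) = (1 / 2 : ℂ) ^ n * io z := by
  have : (1 / 2 : 𝕜) ^ n * z = ((1 / 2 : ℝ) ^ n) • z := by
    rw [RCLike.real_smul_eq_coe_mul]
    push_cast
    rfl
  rw [this, map_smul, Complex.real_smul]
  push_cast
  rfl

lemma norm_phi (E : Cu ≃ ℕ) (n : ℕ) (i : Fin n)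
    (T : lp (fun _ : ℕ => 𝕜) p →L[𝕜] lp (fun _ : ℕ => 𝕜) p) :
    ‖phi E n i T‖ = ‖lev (mat (fun y : Fin n → Bool => E ⟨n, y⟩) T) i‖ := by
  rw [← norm_io]
  congr 1
  have h : phi E n i T = (1 / 2 : 𝕜) ^ n * ∑ y : Fin n → Bool,
    (T (lp.single p (E ⟨n, y⟩) (1 : 𝕜)) : lp (fun _ : ℕ => 𝕜) p) (E ⟨n, flip i y⟩) := by
    simp [phi]
  rw [h, io_half_pow, map_sum, lev, Fintype.card_fin]
  rfl

lemma phi_V (hp : 0 < p.toReal) (E : Cu ≃ ℕ) (n i j : ℕ) (hi : i < n) :
    phi (𝕜 := 𝕜) E n i (permOp (p := p) hp ((E.symm.trans (flE j)).trans E))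
      = if i = j then 1 else 0 := by
  have h1 : phi (𝕜 := 𝕜) E n i (permOp (p := p) hp ((E.symm.trans (flE j)).trans E))
      = (1 / 2 : 𝕜) ^ n * ∑ y : Fin n → Bool, if i = j then (1 : 𝕜) else 0 := by
    simp only [phi, LinearMap.coe_mk, AddHom.coe_mk, dif_pos hi]
    congr 1
    refine Finset.sum_congr rfl fun y _ => ?_
    rw [permOp_apply]
    simp only [Equiv.trans_apply, Equiv.symm_apply_apply, flE_apply, lp.single_apply]
    by_cases hj : j < n
    · by_cases hij : i = j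
      · subst hij
        rw [if_pos rfl]
        have : fl i ⟨n, flip ⟨i, hi⟩ y⟩ = (⟨n, y⟩ : Cu) := by
          simp only [fl, hi, dif_pos]
          exact congrArg (Sigma.mk n) (W26.GP.flip_flip _ _)
        rw [this, Pi.single_eq_same]
      · rw [if_neg hij]
        refine Pi.single_eq_of_ne ?_ _
        intro h
        have h2 := E.injective h
        have h3 : flip ⟨j, hj⟩ (flip ⟨i, hi⟩ y) = y := by
          have : fl j ⟨n, flip ⟨i, hi⟩ y⟩ = (⟨n, flip ⟨j, hj⟩ (flip ⟨i, hi⟩ y)⟩ : Cu) := by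
            simp [fl, hj]
          rw [this] at h2
          simpa using h2
        have h4 := congrFun h3 ⟨i, hi⟩
        have hne : (⟨i, hi⟩ : Fin n) ≠ ⟨j, hj⟩ := fun h => hij (by simpa using h)
        simp [flip, Function.update_of_ne hne] at h4
    · have hij : i ≠ j := by omega
      rw [if_neg hij]
      refine Pi.single_eq_of_ne ?_ _
      intro h
      have h2 := E.injective h
      have : fl j ⟨n, flip ⟨i, hi⟩ y⟩ = (⟨n, flip ⟨i, hi⟩ y⟩ : Cu) := by
        simp [fl, hj]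
      rw [this] at h2
      have h3 : flip ⟨i, hi⟩ y = y := by simpa using h2
      have h4 := congrFun h3 ⟨i, hi⟩
      simp [flip] at h4
  rw [h1, Finset.sum_const, Finset.card_univ, Fintype.card_fun, Fintype.card_bool,
    Fintype.card_fin, nsmul_eq_mul]
  split_ifs
  · push_cast
    rw [mul_one, ← mul_pow]
    norm_num
  · simp

/-- Main estimate in `B(ℓ_p)`. -/
theorem main_data (h1 : 1 < p) (htop : p ≠ ∞) (h2 : p ≠ 2) :
    ∃ (f : ℕ → ℕ → ((lp (fun _ : ℕ => 𝕜) p →L[𝕜] lp (fun _ : ℕ => 𝕜) p) →ₗ[𝕜] 𝕜)) (C : ℝ)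
      (V : ℕ → (lp (fun _ : ℕ => 𝕜) p →L[𝕜] lp (fun _ : ℕ => 𝕜) p)),
      (∀ n k T, ∑ i ∈ range k, ‖f n i T‖ ≤ C * ‖T‖) ∧ (∀ j, ‖V j‖ ≤ 1) ∧
      ∀ n i j, i < n → f n i (V j) = if i = j then 1 else 0 := by
  have hp1 : 1 < p.toReal := by
    rw [← ENNReal.toReal_one]
    exact (ENNReal.toReal_lt_toReal ENNReal.one_ne_top htop).2 h1
  have hp0 : 0 < p.toReal := by linarith
  have hp2 : p.toReal ≠ 2 := by
    intro h
    apply h2
    rw [← ENNReal.ofReal_toReal htop, h]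
    simp
  have hconj : p.toReal.HolderConjugate (Real.conjExponent p.toReal) :=
    Real.HolderConjugate.conjExponent hp1
  obtain ⟨t, ht, hlev⟩ := level_bound hconj hp2
  obtain ⟨E⟩ := exists_equiv
  refine ⟨phi E, 2 / t, fun j => permOp hp0 ((E.symm.trans (flE j)).trans E), ?_,
    fun j => permOp_norm hp0 _, fun n i j hi => phi_V hp0 E n i j hi⟩
  intro n k T
  have hb := hlev n (mat (fun y : Fin n → Bool => E ⟨n, y⟩) T) (2 * ‖T‖) (fun f g =>
    bil_bound hconj rfl (fun y : Fin n → Bool => E ⟨n, y⟩) (fun y z h => by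
      have := E.injective h
      simpa using this) T f g)
  calc ∑ i ∈ range k, ‖phi E n i T‖ ≤ ∑ i ∈ range (max k n), ‖phi E n i T‖ :=
        Finset.sum_le_sum_of_subset_of_nonneg (Finset.range_subset_range.2 (le_max_left _ _))
          fun _ _ _ => norm_nonneg _
    _ = ∑ i ∈ range n, ‖phi E n i T‖ := by
        refine (Finset.sum_subset (Finset.range_subset_range.2 (le_max_right _ _)) ?_).symm
        intro i _ hi
        have : ¬ i < n := fun h => hi (Finset.mem_range.2 h)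
        simp [phi, this]
    _ = ∑ i : Fin n, ‖phi E n i T‖ := (Fin.sum_univ_eq_sum_range (fun i => ‖phi E n i T‖) n).symm
    _ = ∑ i : Fin n, ‖lev (mat (fun y : Fin n → Bool => E ⟨n, y⟩) T) i‖ :=
        Finset.sum_congr rfl fun i _ => norm_phi E n i T
    _ ≤ 2 * ‖T‖ / t := hb
    _ = 2 / t * ‖T‖ := by ring

end W26.GP
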