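import Pool.Agent.W26.GP.Tens

/-!
Bounds for operators on `ℓ_p(ℕ)`.
-/

open Finset Filter Topology
open scoped ENNReal

namespace W26.GP

/-- dimension-free constant -/
theorem level_bound {P Q : ℝ} (h : P.HolderConjugate Q) (hP2 : P ≠ 2) :
    ∃ t > 0, ∀ (n : ℕ) (A : (Fin n → Bool) → (Fin n → Bool) → ℂ) (K : ℝ),
      (∀ f h : (Fin n → Bool) → ℂ, ‖∑ x, ∑ y, A x y * (h x * f y)‖
        ≤ K * (∑ y, ‖f y‖ ^ P) ^ (1 / P) * (∑ x, ‖h x‖ ^ Q) ^ (1 / Q)) →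
      ∑ i, ‖lev A i‖ ≤ K / t := by
  have hP : 0 < P := h.pos
  have hQ : 0 < Q := h.symm.pos
  set r : ℝ := 1 / 2 with hr
  have hr0 : 0 < r := by norm_num
  set r' : ℝ := r ^ (P - 1) with hr'
  have hr'0 : 0 < r' := Real.rpow_pos_of_pos hr0 _
  have hrr : r * r' = r ^ P := by
    rw [hr', mul_comm, ← Real.rpow_add_one hr0.ne']; ring_nf
  set D : ℝ := 1 + r * r' with hD
  have hD0 : 0 < D := by positivity
  have hinv : P⁻¹ + Q⁻¹ = 1 := h.inv_add_inv_eq_one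
  have hd : D ^ (-P⁻¹) * D ^ (-Q⁻¹) * D = 1 := by
    rw [← Real.rpow_add hD0, ← Real.rpow_add_one hD0.ne']
    have : -P⁻¹ + -Q⁻¹ + 1 = 0 := by linarith
    rw [this, Real.rpow_zero]
  have ha0 : (r + r') / D ≠ 0 := by positivity
  have hne : r' - r ≠ 0 := by
    intro h0
    have h1 : r ^ (P - 1) = r ^ (1 : ℝ) := by rw [Real.rpow_one]; linarith
    have h2 : P - 1 = 1 := by
      have := (Real.rpow_right_inj hr0 (by norm_num : r ≠ 1)).1 h1
      exact this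
    exact hP2 (by linarith)
  have hb0 : (r' - r) / D ≠ 0 := div_ne_zero hne hD0.ne'
  have hr'Q : r' ^ Q = r ^ P := by
    rw [hr', ← Real.rpow_mul hr0.le]
    congr 1
    exact h.sub_one_mul_conj
  have h1 : (D ^ (-P⁻¹)) ^ P + (r * D ^ (-P⁻¹)) ^ P = 1 := by
    have e : (D ^ (-P⁻¹)) ^ P = D⁻¹ := by
      rw [← Real.rpow_mul hD0.le, neg_mul, inv_mul_cancel₀ hP.ne', Real.rpow_neg_one]
    rw [Real.mul_rpow hr0.le (Real.rpow_nonneg hD0.le _), e]
    have : D = 1 + r ^ P := by rw [hD, hrr]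
    field_simp
    exact this.symm
  have h2 : (D ^ (-Q⁻¹)) ^ Q + (r' * D ^ (-Q⁻¹)) ^ Q = 1 := by
    have e : (D ^ (-Q⁻¹)) ^ Q = D⁻¹ := by
      rw [← Real.rpow_mul hD0.le, neg_mul, inv_mul_cancel₀ hQ.ne', Real.rpow_neg_one]
    rw [Real.mul_rpow hr'0.le (Real.rpow_nonneg hD0.le _), e, hr'Q]
    have : D = 1 + r ^ P := by rw [hD, hrr]
    field_simp
    exact this.symm
  set t : ℝ := min |(r + r') / D| |(r' - r) / D| / 2 with ht
  have ht0 : 0 < t := by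
    have := abs_pos.2 ha0
    have := abs_pos.2 hb0
    positivity
  refine ⟨t, ht0, fun n A K hA => level_one ht0 A fun s hs => ?_⟩
  refine prod_state (p := P) (q := Q) (t := t) hd hD (a := (r + r') / D) (b := (r' - r) / D)
    (by field_simp) (by field_simp) ha0 hb0 (Real.rpow_nonneg hD0.le _) (Real.rpow_nonneg hD0.le _)
    hr0.le hr'0.le h1 h2 ?_ ?_ ht0 A K hA s hs
  · rw [ht]; linarith [min_le_left |(r + r') / D| |(r' - r) / D|]
  · rw [ht]; linarith [min_le_right |(r + r') / D| |(r' - r) / D|]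

section
variable {𝕜 : Type*} [RCLike 𝕜]

/-- embedding of the scalars in `ℂ`, real linear -/
noncomputable def io : 𝕜 →ₗ[ℝ] ℂ where
  toFun z := (RCLike.re z : ℂ) + (RCLike.im z : ℂ) * Complex.I
  map_add' z w := by simp; ring
  map_smul' c z := by simp [RCLike.smul_re, RCLike.smul_im]; ring

lemma norm_io (z : 𝕜) : ‖io z‖ = ‖z‖ := by
  have h1 : ‖io z‖ ^ 2 = ‖z‖ ^ 2 := by
    rw [← Complex.normSq_eq_norm_sq]
    have : (io z : ℂ) = (RCLike.re z : ℂ) + (RCLike.im z : ℂ) * Complex.I := rfl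
    rw [this, Complex.normSq_add_mul_I, RCLike.norm_sq_eq_def]; ring
  exact (pow_left_inj₀ (norm_nonneg _) (norm_nonneg _) two_ne_zero).1 h1

variable {p : ℝ≥0∞} [Fact (1 ≤ p)]

/-- matrix of an operator -/
noncomputable def mat {X : Type*} (e : X → ℕ)
    (T : lp (fun _ : ℕ => 𝕜) p →L[𝕜] lp (fun _ : ℕ => 𝕜) p) (x y : X) : ℂ :=
  io ((T (lp.single p (e y) (1 : 𝕜)) : lp (fun _ : ℕ => 𝕜) p) (e x))

variable {X : Type*} [Fintype X]

lemma bil_real {P Q : ℝ} (h : P.HolderConjugate Q) (hP : p.toReal = P) (e : X → ℕ)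
    (he : Function.Injective e)
    (T : lp (fun _ : ℕ => 𝕜) p →L[𝕜] lp (fun _ : ℕ => 𝕜) p) (u : X → ℝ) (g : X → ℂ) :
    ‖∑ x, ∑ y, mat e T x y * (g x * (u y : ℂ))‖ ≤
      ‖T‖ * (∑ y, |u y| ^ P) ^ (1 / P) * (∑ x, ‖g x‖ ^ Q) ^ (1 / Q) := by
  classical
  have hP0 : 0 < p.toReal := hP ▸ h.pos
  set U : lp (fun _ : ℕ => 𝕜) p := ∑ y, lp.single p (e y) ((u y : ℝ) : 𝕜) with hU
  have hUn : ‖U‖ = (∑ y, |u y| ^ P) ^ (1 / P) := by
    have h1 := lp.norm_sum_single (E := fun _ : ℕ => 𝕜) hP0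
      (Function.extend e (fun y => ((u y : ℝ) : 𝕜)) 0) (univ.map ⟨e, he⟩)
    rw [Finset.sum_map, Finset.sum_map] at h1
    simp only [Function.Embedding.coeFn_mk, he.extend_apply] at h1
    rw [← hU, hP] at h1
    have h2 : ∑ y, |u y| ^ P = ∑ x, ‖((u x : ℝ) : 𝕜)‖ ^ P :=
      Finset.sum_congr rfl fun y _ => by rw [RCLike.norm_ofReal]
    rw [h2, ← h1, one_div, Real.rpow_rpow_inv (norm_nonneg _) (hP ▸ hP0.ne')]
  have hTU : ∀ x, ∑ y, mat e T x y * (g x * (u y : ℂ)) = g x * io ((T U) (e x)) := by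
    intro x
    have h1 : T U = ∑ y, (u y : 𝕜) • T (lp.single p (e y) (1 : 𝕜)) := by
      rw [hU, map_sum]
      refine Finset.sum_congr rfl fun y _ => ?_
      rw [← map_smul, ← lp.single_smul, smul_eq_mul, mul_one]
    have h2 : (T U) (e x) = ∑ y, (u y : ℝ) • ((T (lp.single p (e y) (1 : 𝕜)) :
        lp (fun _ : ℕ => 𝕜) p) (e x)) := by
      rw [h1, lp.coeFn_sum, Finset.sum_apply]
      refine Finset.sum_congr rfl fun y _ => ?_
      rw [lp.coeFn_smul, Pi.smul_apply, RCLike.real_smul_eq_coe_mul, smul_eq_mul]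
    rw [h2, map_sum, Finset.mul_sum]
    refine Finset.sum_congr rfl fun y _ => ?_
    rw [map_smul, mat, Complex.real_smul]
    ring
  simp_rw [hTU]
  calc ‖∑ x, g x * io ((T U) (e x))‖ ≤ ∑ x, ‖(T U) (e x)‖ * ‖g x‖ := by
        refine norm_sum_le_of_le _ fun x _ => ?_
        rw [norm_mul, norm_io, mul_comm]
    _ ≤ (∑ x, ‖(T U) (e x)‖ ^ P) ^ (1 / P) * (∑ x, ‖g x‖ ^ Q) ^ (1 / Q) :=
        Real.inner_le_Lp_mul_Lq_of_nonneg _ h (fun _ _ => norm_nonneg _) fun _ _ => norm_nonneg _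
    _ ≤ ‖T‖ * (∑ y, |u y| ^ P) ^ (1 / P) * (∑ x, ‖g x‖ ^ Q) ^ (1 / Q) := by
        refine mul_le_mul_of_nonneg_right ?_ (by positivity)
        rw [← hUn]
        refine le_trans ?_ (T.le_opNorm U)
        have h3 := lp.sum_rpow_le_norm_rpow (E := fun _ : ℕ => 𝕜) hP0 (T U) (univ.map ⟨e, he⟩)
        rw [Finset.sum_map, hP] at h3
        simp only [Function.Embedding.coeFn_mk] at h3
        calc (∑ x, ‖(T U) (e x)‖ ^ P) ^ (1 / P) ≤ (‖T U‖ ^ P) ^ (1 / P) :=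
              Real.rpow_le_rpow (by positivity) h3 (by rw [← hP]; positivity)
          _ = ‖T U‖ := by rw [one_div, Real.rpow_rpow_inv (norm_nonneg _) (hP ▸ hP0.ne')]

lemma bil_bound {P Q : ℝ} (h : P.HolderConjugate Q) (hP : p.toReal = P) (e : X → ℕ)
    (he : Function.Injective e)
    (T : lp (fun _ : ℕ => 𝕜) p →L[𝕜] lp (fun _ : ℕ => 𝕜) p) (f g : X → ℂ) :
    ‖∑ x, ∑ y, mat e T x y * (g x * f y)‖ ≤
      2 * ‖T‖ * (∑ y, ‖f y‖ ^ P) ^ (1 / P) * (∑ x, ‖g x‖ ^ Q) ^ (1 / Q) := by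
  have h1 := bil_real h hP e he T (fun y => (f y).re) g
  have h2 := bil_real h hP e he T (fun y => (f y).im) g
  have hP0 : 0 < P := h.pos
  have e1 : ∑ x, ∑ y, mat e T x y * (g x * f y) = ∑ x, ∑ y, mat e T x y * (g x * ((f y).re : ℂ))
      + (∑ x, ∑ y, mat e T x y * (g x * ((f y).im : ℂ))) * Complex.I := by
    rw [Finset.sum_mul, ← Finset.sum_add_distrib]
    refine Finset.sum_congr rfl fun x _ => ?_
    rw [Finset.sum_mul, ← Finset.sum_add_distrib]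
    refine Finset.sum_congr rfl fun y _ => ?_
    conv_lhs => rw [← Complex.re_add_im (f y)]
    ring
  have h3 : (∑ y, |(f y).re| ^ P) ^ (1 / P) ≤ (∑ y, ‖f y‖ ^ P) ^ (1 / P) :=
    Real.rpow_le_rpow (by positivity) (Finset.sum_le_sum fun y _ =>
      Real.rpow_le_rpow (abs_nonneg _) (Complex.abs_re_le_norm _) hP0.le) (by positivity)
  have h4 : (∑ y, |(f y).im| ^ P) ^ (1 / P) ≤ (∑ y, ‖f y‖ ^ P) ^ (1 / P) :=
    Real.rpow_le_rpow (by positivity) (Finset.sum_le_sum fun y _ =>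
      Real.rpow_le_rpow (abs_nonneg _) (Complex.abs_im_le_norm _) hP0.le) (by positivity)
  have hG : 0 ≤ (∑ x, ‖g x‖ ^ Q) ^ (1 / Q) := by positivity
  rw [e1]
  refine (norm_add_le _ _).trans ?_
  rw [norm_mul, Complex.norm_I, mul_one]
  have h5 := mul_le_mul_of_nonneg_right (mul_le_mul_of_nonneg_left h3 (norm_nonneg T)) hG
  have h6 := mul_le_mul_of_nonneg_right (mul_le_mul_of_nonneg_left h4 (norm_nonneg T)) hG
  linarith

end

end W26.GP
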