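import Mathlib

/-!
Product states on operators of `ℓ_p({0,1}^n)` and extraction of the level-one coefficients.
-/

open Finset

namespace W26.GP

/-- The `2 × 2` matrix with diagonal `1/2` and off-diagonal entries `s/2`. -/
noncomputable def rho (s : ℂ) (u v : Bool) : ℂ := if u = v then 1 / 2 else s / 2

/-- the four phases -/
noncomputable def al (k : Fin 4) : ℂ := ![1, Complex.I, -1, -Complex.I] k

/-- the four conjugate phases -/
noncomputable def alc (k : Fin 4) : ℂ := ![1, -Complex.I, -1, Complex.I] k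

/-- Weights. -/
noncomputable def wt (a b : ℝ) (s : ℂ) (k : Fin 4) : ℝ :=
  ![1 / 4 + s.re / (2 * a), 1 / 4 + s.im / (2 * b), 1 / 4 - s.re / (2 * a),
    1 / 4 - s.im / (2 * b)] k

/-- vector on which operators act; `d1 = D^{-1/p}` -/
noncomputable def fv (d1 r : ℝ) (w : Fin 4 × Bool) (v : Bool) : ℂ :=
  if v = w.2 then (d1 : ℂ) else alc w.1 * (r : ℂ) * (d1 : ℂ)

/-- functional; `d2 = D^{-1/q}`, `r' = r^{p-1}` -/
noncomputable def hv (d2 r' : ℝ) (w : Fin 4 × Bool) (u : Bool) : ℂ :=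
  if u = w.2 then (d2 : ℂ) else al w.1 * (r' : ℂ) * (d2 : ℂ)

lemma al0 : al 0 = 1 := rfl
lemma al1 : al 1 = Complex.I := rfl
lemma al2 : al 2 = -1 := rfl
lemma al3 : al 3 = -Complex.I := rfl
lemma alc0 : alc 0 = 1 := rfl
lemma alc1 : alc 1 = -Complex.I := rfl
lemma alc2 : alc 2 = -1 := rfl
lemma alc3 : alc 3 = Complex.I := rfl
lemma wt0 (a b : ℝ) (s : ℂ) : wt a b s 0 = 1 / 4 + s.re / (2 * a) := rfl
lemma wt1 (a b : ℝ) (s : ℂ) : wt a b s 1 = 1 / 4 + s.im / (2 * b) := rfl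
lemma wt2 (a b : ℝ) (s : ℂ) : wt a b s 2 = 1 / 4 - s.re / (2 * a) := rfl
lemma wt3 (a b : ℝ) (s : ℂ) : wt a b s 3 = 1 / 4 - s.im / (2 * b) := rfl

lemma sum_wt (a b : ℝ) (s : ℂ) : ∑ k, wt a b s k = 1 := by
  simp [Fin.sum_univ_four, wt]; ring

lemma rho_eq {d1 d2 r r' D a b : ℝ} (hd : d1 * d2 * D = 1) (hrr : D = 1 + r * r')
    (ha : a * D = r + r') (hb : b * D = r' - r) (ha0 : a ≠ 0) (hb0 : b ≠ 0)
    (s : ℂ) (u v : Bool) :
    ∑ w : Fin 4 × Bool, ((wt a b s w.1 / 2 : ℝ) : ℂ) * (hv d2 r' w u * fv d1 r w v) = rho s u v := by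
  have hD : D ≠ 0 := by
    rintro rfl; simp at hd
  have e1 : (d1 : ℂ) * d2 * D = 1 := by exact_mod_cast hd
  have e2 : (D : ℂ) = 1 + r * r' := by exact_mod_cast hrr
  have e3 : (a : ℂ) * D = r + r' := by exact_mod_cast ha
  have e4 : (b : ℂ) * D = r' - r := by exact_mod_cast hb
  have ha0' : (a : ℂ) ≠ 0 := by exact_mod_cast ha0
  have hb0' : (b : ℂ) ≠ 0 := by exact_mod_cast hb0
  have hD' : (D : ℂ) ≠ 0 := by exact_mod_cast hD
  have e12 : (d1 : ℂ) * d2 = 1 / D := by field_simp; linear_combination e1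
  have hI : Complex.I ^ 2 = -1 := Complex.I_sq
  have hs : (s.re : ℂ) + s.im * Complex.I = s := Complex.re_add_im s
  rw [Fintype.sum_prod_type]
  simp only [Fin.sum_univ_four, Fintype.sum_bool]
  have hA : (s.re : ℂ) / (2 * (a : ℂ)) * (2 * a) = s.re := by field_simp
  have hB : (s.im : ℂ) / (2 * (b : ℂ)) * (2 * b) = s.im := by field_simp
  cases u <;> cases v <;>
    simp only [wt0, wt1, wt2, wt3, hv, fv, al0, al1, al2, al3, alc0, alc1, alc2, alc3, rho,
      if_true, Bool.false_eq_true, if_false, Bool.true_eq_false] <;>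
    push_cast <;> generalize (s.re : ℂ) / (2 * (a : ℂ)) = A at * <;>
    generalize (s.im : ℂ) / (2 * (b : ℂ)) = B at *
  · linear_combination (1/2) * e1 - (1/2) * d1 * d2 * e2 - (1/4) * d1 * d2 * r * r' * hI
  · linear_combination (-d1 * d2 * A) * e3 - (d1 * d2 * B * Complex.I) * e4
      + (A * a + B * b * Complex.I) * e1 + (1/2) * hA + (Complex.I / 2) * hB + (1/2) * hs
  · linear_combination (-d1 * d2 * A) * e3 - (d1 * d2 * B * Complex.I) * e4
      + (A * a + B * b * Complex.I) * e1 + (1/2) * hA + (Complex.I / 2) * hB + (1/2) * hs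
  · linear_combination (1/2) * e1 - (1/2) * d1 * d2 * e2 - (1/4) * d1 * d2 * r * r' * hI

lemma wt_nonneg {a b t : ℝ} (ht : 2 * t ≤ |a|) (ht' : 2 * t ≤ |b|) (ht0 : 0 < t) {s : ℂ}
    (hs : ‖s‖ ≤ t) (k : Fin 4) : 0 ≤ wt a b s k := by
  have h1 : |s.re / (2 * a)| ≤ 1 / 4 := by
    rw [abs_div, abs_mul, abs_two, div_le_iff₀ (by linarith)]
    have := Complex.abs_re_le_norm s
    linarith
  have h2 : |s.im / (2 * b)| ≤ 1 / 4 := by
    rw [abs_div, abs_mul, abs_two, div_le_iff₀ (by linarith)]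
    have := Complex.abs_im_le_norm s
    linarith
  have h3 := abs_le.1 h1
  have h4 := abs_le.1 h2
  fin_cases k <;> simp [wt] <;> linarith [h3.1, h3.2, h4.1, h4.2]

lemma norm_al (k : Fin 4) : ‖al k‖ = 1 := by
  fin_cases k <;> simp [al]

lemma norm_alc (k : Fin 4) : ‖alc k‖ = 1 := by
  fin_cases k <;> simp [alc]

lemma sum_fv {d1 r p : ℝ} (hd : 0 ≤ d1) (hr : 0 ≤ r) (h : d1 ^ p + (r * d1) ^ p = 1)
    (w : Fin 4 × Bool) : ∑ v, ‖fv d1 r w v‖ ^ p = 1 := by
  obtain ⟨k, σ⟩ := w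
  cases σ <;> simp [fv, norm_alc, abs_of_nonneg hd, abs_of_nonneg hr] <;> linarith

lemma sum_hv {d2 r' q : ℝ} (hd : 0 ≤ d2) (hr : 0 ≤ r') (h : d2 ^ q + (r' * d2) ^ q = 1)
    (w : Fin 4 × Bool) : ∑ u, ‖hv d2 r' w u‖ ^ q = 1 := by
  obtain ⟨k, σ⟩ := w
  cases σ <;> simp [hv, norm_al, abs_of_nonneg hd, abs_of_nonneg hr] <;> linarith

variable {ι : Type*} [Fintype ι] [DecidableEq ι]

/-- Product states. -/
theorem prod_state {p q t : ℝ} {d1 d2 r r' D a b : ℝ} (hd : d1 * d2 * D = 1)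
    (hrr : D = 1 + r * r')
    (ha : a * D = r + r') (hb : b * D = r' - r) (ha0 : a ≠ 0) (hb0 : b ≠ 0)
    (hd1 : 0 ≤ d1) (hd2 : 0 ≤ d2) (hr : 0 ≤ r) (hr' : 0 ≤ r')
    (h1 : d1 ^ p + (r * d1) ^ p = 1) (h2 : d2 ^ q + (r' * d2) ^ q = 1)
    (ht : 2 * t ≤ |a|) (ht' : 2 * t ≤ |b|) (ht0 : 0 < t)
    (A : (ι → Bool) → (ι → Bool) → ℂ) (K : ℝ)
    (hA : ∀ f h : (ι → Bool) → ℂ, ‖∑ x, ∑ y, A x y * (h x * f y)‖
      ≤ K * (∑ y, ‖f y‖ ^ p) ^ (1 / p) * (∑ x, ‖h x‖ ^ q) ^ (1 / q))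
    (s : ι → ℂ) (hs : ∀ j, ‖s j‖ ≤ t) :
    ‖∑ x, ∑ y, A x y * ∏ j, rho (s j) (x j) (y j)‖ ≤ K := by
  have e1 : ∀ x y : ι → Bool, ∏ j, rho (s j) (x j) (y j)
      = ∑ w : ι → Fin 4 × Bool, ((∏ j, (wt a b (s j) (w j).1 / 2) : ℝ) : ℂ) *
        ((∏ j, hv d2 r' (w j) (x j)) * ∏ j, fv d1 r (w j) (y j)) := by
    intro x y
    have : ∀ j, rho (s j) (x j) (y j) = ∑ w : Fin 4 × Bool, ((wt a b (s j) w.1 / 2 : ℝ) : ℂ) *
        (hv d2 r' w (x j) * fv d1 r w (y j)) := fun j =>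
      (rho_eq hd hrr ha hb ha0 hb0 (s j) (x j) (y j)).symm
    simp_rw [this]
    rw [Finset.prod_univ_sum, Fintype.piFinset_univ]
    refine Finset.sum_congr rfl fun w _ => ?_
    rw [Finset.prod_mul_distrib, Finset.prod_mul_distrib]
    push_cast
    rfl
  have e2 : ∑ x, ∑ y, A x y * ∏ j, rho (s j) (x j) (y j)
      = ∑ w : ι → Fin 4 × Bool, ((∏ j, (wt a b (s j) (w j).1 / 2) : ℝ) : ℂ) *
        ∑ x, ∑ y, A x y * ((∏ j, hv d2 r' (w j) (x j)) * ∏ j, fv d1 r (w j) (y j)) := by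
    simp_rw [e1, Finset.mul_sum]
    rw [Finset.sum_comm]
    have : ∀ y : ι → Bool, ∑ x : ι → Bool, ∑ w : ι → Fin 4 × Bool, A x y *
        (((∏ j, (wt a b (s j) (w j).1 / 2) : ℝ) : ℂ) *
        ((∏ j, hv d2 r' (w j) (x j)) * ∏ j, fv d1 r (w j) (y j))) =
        ∑ w : ι → Fin 4 × Bool, ∑ x : ι → Bool, ((∏ j, (wt a b (s j) (w j).1 / 2) : ℝ) : ℂ) *
        (A x y * ((∏ j, hv d2 r' (w j) (x j)) * ∏ j, fv d1 r (w j) (y j))) := by
      intro y
      rw [Finset.sum_comm]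
      refine Finset.sum_congr rfl fun w _ => Finset.sum_congr rfl fun x _ => by ring
    simp_rw [this]
    rw [Finset.sum_comm]
    refine Finset.sum_congr rfl fun w _ => ?_
    rw [Finset.sum_comm]
  have e3 : ∀ w : ι → Fin 4 × Bool,
      ‖∑ x, ∑ y, A x y * ((∏ j, hv d2 r' (w j) (x j)) * ∏ j, fv d1 r (w j) (y j))‖ ≤ K := by
    intro w
    refine (hA (fun y => ∏ j, fv d1 r (w j) (y j)) (fun x => ∏ j, hv d2 r' (w j) (x j))).trans ?_
    have g1 : ∑ y : ι → Bool, ‖∏ j, fv d1 r (w j) (y j)‖ ^ p = 1 := by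
      have : ∀ y : ι → Bool, ‖∏ j, fv d1 r (w j) (y j)‖ ^ p
          = ∏ j, ‖fv d1 r (w j) (y j)‖ ^ p := fun y => by
        rw [norm_prod, Real.finsetProd_rpow _ _ fun _ _ => norm_nonneg _]
      simp_rw [this]
      rw [← Fintype.piFinset_univ, ← Finset.prod_univ_sum (fun _ => univ)
        (fun j v => ‖fv d1 r (w j) v‖ ^ p)]
      exact Finset.prod_eq_one fun j _ => sum_fv hd1 hr h1 _
    have g2 : ∑ y : ι → Bool, ‖∏ j, hv d2 r' (w j) (y j)‖ ^ q = 1 := by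
      have : ∀ y : ι → Bool, ‖∏ j, hv d2 r' (w j) (y j)‖ ^ q
          = ∏ j, ‖hv d2 r' (w j) (y j)‖ ^ q := fun y => by
        rw [norm_prod, Real.finsetProd_rpow _ _ fun _ _ => norm_nonneg _]
      simp_rw [this]
      rw [← Fintype.piFinset_univ, ← Finset.prod_univ_sum (fun _ => univ)
        (fun j v => ‖hv d2 r' (w j) v‖ ^ q)]
      exact Finset.prod_eq_one fun j _ => sum_hv hd2 hr' h2 _
    rw [g1, g2]; simp
  have hw0 : ∀ w : ι → Fin 4 × Bool, 0 ≤ ∏ j, (wt a b (s j) (w j).1 / 2) := fun w =>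
    Finset.prod_nonneg fun j _ => div_nonneg (wt_nonneg ht ht' ht0 (hs j) _) (by norm_num)
  have hw1 : ∑ w : ι → Fin 4 × Bool, ∏ j, (wt a b (s j) (w j).1 / 2) = 1 := by
    rw [← Fintype.piFinset_univ, ← Finset.prod_univ_sum (fun _ => univ)
        (fun j (v : Fin 4 × Bool) => wt a b (s j) v.1 / 2)]
    refine Finset.prod_eq_one fun j _ => ?_
    rw [Fintype.sum_prod_type]
    simp only [Fintype.sum_bool]
    rw [← sum_wt a b (s j)]
    exact Finset.sum_congr rfl fun k _ => by ring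
  rw [e2]
  calc ‖∑ w : ι → Fin 4 × Bool, ((∏ j, (wt a b (s j) (w j).1 / 2) : ℝ) : ℂ) *
        ∑ x, ∑ y, A x y * ((∏ j, hv d2 r' (w j) (x j)) * ∏ j, fv d1 r (w j) (y j))‖
      ≤ ∑ w : ι → Fin 4 × Bool, (∏ j, (wt a b (s j) (w j).1 / 2)) * K := by
        refine norm_sum_le_of_le _ fun w _ => ?_
        rw [norm_mul, Complex.norm_real, Real.norm_of_nonneg (hw0 w)]
        exact mul_le_mul_of_nonneg_left (e3 w) (hw0 w)
    _ = K := by rw [← Finset.sum_mul, hw1, one_mul]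

/-- flip the coordinate `i` -/
def flip (i : ι) (y : ι → Bool) : ι → Bool := Function.update y i (!y i)

/-- The level-one functional. -/
noncomputable def lev (A : (ι → Bool) → (ι → Bool) → ℂ) (i : ι) : ℂ :=
  (1 / 2) ^ (Fintype.card ι) * ∑ y, A (flip i y) y

lemma flip_eq_iff {i : ι} {x y : ι → Bool} :
    x = flip i y ↔ (x i ≠ y i ∧ ∀ j, j ≠ i → x j = y j) := by
  constructor
  · rintro rfl
    refine ⟨by simp [flip], fun j hj => by simp [flip, hj]⟩
  · rintro ⟨h1, h2⟩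
    funext j
    by_cases hj : j = i
    · subst hj
      simp only [flip, Function.update_self]
      revert h1; cases x j <;> cases y j <;> simp
    · simp [flip, hj, h2 j hj]

/-- derivative of the polynomial at zero -/
theorem deriv_poly (A : (ι → Bool) → (ι → Bool) → ℂ) (ε : ι → ℂ) :
    HasDerivAt (fun z : ℂ => ∑ x, ∑ y, A x y * ∏ j, rho (z * ε j) (x j) (y j))
      (∑ i, ε i * lev A i) 0 := by
  have h0 : ∀ (u v : Bool) (c : ℂ), HasDerivAt (fun z : ℂ => rho (z * c) u v)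
      (if u = v then 0 else c / 2) 0 := by
    intro u v c
    by_cases h : u = v
    · simp only [rho, h, if_true]
      exact hasDerivAt_const _ _
    · simp only [rho, h, if_false]
      have := ((hasDerivAt_id (0 : ℂ)).mul_const c).div_const 2
      simpa using this
  have h1 : ∀ x y : ι → Bool, HasDerivAt (fun z : ℂ => ∏ j, rho (z * ε j) (x j) (y j))
      (∑ i, (∏ j ∈ univ.erase i, rho (0 * ε j) (x j) (y j)) • (if x i = y i then 0 else ε i / 2))
      0 := fun x y => HasDerivAt.fun_finsetProd fun i _ => h0 _ _ _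
  have h2 : HasDerivAt (fun z : ℂ => ∑ x, ∑ y, A x y * ∏ j, rho (z * ε j) (x j) (y j))
      (∑ x, ∑ y, A x y * (∑ i, (∏ j ∈ univ.erase i, rho (0 * ε j) (x j) (y j)) •
        (if x i = y i then 0 else ε i / 2))) 0 :=
    HasDerivAt.fun_sum fun x _ => HasDerivAt.fun_sum fun y _ => (h1 x y).const_mul _
  convert h2 using 1
  have h3 : ∀ (x y : ι → Bool) (i : ι), (∏ j ∈ univ.erase i, rho (0 * ε j) (x j) (y j)) •
        (if x i = y i then 0 else ε i / 2)
      = if x = flip i y then ε i * (1 / 2) ^ (Fintype.card ι) else 0 := by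
    intro x y i
    by_cases hx : x = flip i y
    · rw [if_pos hx]
      obtain ⟨g1, g2⟩ := flip_eq_iff.1 hx
      rw [if_neg g1, Finset.prod_congr rfl (g := fun _ => (1 / 2 : ℂ)), Finset.prod_const,
        Finset.card_erase_of_mem (mem_univ _), Finset.card_univ, smul_eq_mul]
      · obtain ⟨m, hm⟩ : ∃ m, Fintype.card ι = m + 1 :=
          ⟨Fintype.card ι - 1, (Nat.succ_pred_eq_of_pos (Fintype.card_pos_iff.2 ⟨i⟩)).symm⟩
        rw [hm, Nat.add_sub_cancel, pow_succ]; ring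
      · intro j hj
        simp [rho, g2 j (Finset.ne_of_mem_erase hj)]
    · rw [if_neg hx]
      by_cases g1 : x i = y i
      · rw [if_pos g1, smul_zero]
      · have : ∃ j, j ≠ i ∧ x j ≠ y j := by
          by_contra hcon
          push Not at hcon
          exact hx (flip_eq_iff.2 ⟨g1, hcon⟩)
        obtain ⟨j, hj, hxy⟩ := this
        rw [Finset.prod_eq_zero (Finset.mem_erase.2 ⟨hj, mem_univ _⟩) (by simp [rho, hxy]),
          zero_smul]
  simp_rw [h3, Finset.mul_sum]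
  have h4 : ∀ i, ε i * lev A i = ∑ y, ∑ x, A x y *
      (if x = flip i y then ε i * (1 / 2) ^ (Fintype.card ι) else 0) := by
    intro i
    simp only [mul_ite, mul_zero, Finset.sum_ite_eq', mem_univ, if_true, lev]
    rw [← Finset.sum_mul]; ring
  simp_rw [h4]
  rw [Finset.sum_comm]
  have : ∀ y : ι → Bool, ∑ i, ∑ x, A x y *
      (if x = flip i y then ε i * (1 / 2) ^ (Fintype.card ι) else 0) = ∑ x, ∑ i, A x y *
      (if x = flip i y then ε i * (1 / 2) ^ (Fintype.card ι) else 0) := fun y => Finset.sum_comm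
  simp_rw [this]
  rw [Finset.sum_comm]

/-- The level-one coefficients are bounded in `ℓ_1`. -/
theorem level_one {K t : ℝ} (ht0 : 0 < t) (A : (ι → Bool) → (ι → Bool) → ℂ)
    (hA : ∀ s : ι → ℂ, (∀ j, ‖s j‖ ≤ t) →
      ‖∑ x, ∑ y, A x y * ∏ j, rho (s j) (x j) (y j)‖ ≤ K) :
    ∑ i, ‖lev A i‖ ≤ K / t := by
  obtain ⟨ε, hε, hε'⟩ : ∃ ε : ι → ℂ, (∀ i, ‖ε i‖ ≤ 1) ∧ ∀ i, ε i * lev A i = ‖lev A i‖ := by
    choose ε h1 h2 using fun i => (RCLike.exists_norm_eq_mul_self (lev A i))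
    exact ⟨ε, fun i => (h1 i).le, fun i => (h2 i).symm⟩
  have h1 := deriv_poly A ε
  have h2 : Differentiable ℂ (fun z : ℂ => ∑ x, ∑ y, A x y * ∏ j, rho (z * ε j) (x j) (y j)) := by
    have h0 : ∀ (u v : Bool) (c : ℂ), Differentiable ℂ (fun z : ℂ => rho (z * c) u v) := by
      intro u v c
      by_cases h : u = v
      · simp only [rho, h, if_true]; exact differentiable_const _
      · simp only [rho, h, if_false]
        exact (differentiable_id.mul_const c).div_const 2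
    refine Differentiable.fun_sum fun x _ => Differentiable.fun_sum fun y _ =>
      Differentiable.const_mul (Differentiable.fun_finsetProd fun j _ => h0 _ _ _) _
  have h3 := Complex.norm_deriv_le_of_forall_mem_sphere_norm_le (c := 0) ht0
    (C := K) h2.diffContOnCl (fun z hz => hA (fun j => z * ε j) fun j => by
      rw [norm_mul]
      have hz' : ‖z‖ = t := by simpa using hz
      rw [hz']
      exact mul_le_of_le_one_right ht0.le (hε j))
  rw [h1.deriv] at h3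
  refine le_trans (le_of_eq ?_) h3
  simp_rw [hε']
  rw [← Complex.ofReal_sum, Complex.norm_real, Real.norm_of_nonneg
    (Finset.sum_nonneg fun _ _ => norm_nonneg _)]

end W26.GP
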